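import Pool.Agent.helper66.WD.Spec

universe u

namespace Pool.Agent.WD

open MvPolynomial Pool.Agent.helper92.VC

theorem MAI_mono {σ k : Type*} [CommRing k] {f : MvPolynomial σ k} {r s : ℕ} (h : r ≤ s)
    (hf : ComputedIn f r) : ComputedIn f s := by
  obtain ⟨l, h1, h2, h3⟩ := hf
  exact ⟨l, h1, h2.trans h, h3⟩

theorem MAI_obound (n r c d s : ℕ) (h : r ≤ c) : obound n r d s ≤ obound n c d s := by
  unfold obound
  have h1 : (n + 1) ^ r ≤ (n + 1) ^ c := Nat.pow_le_pow_right (by omega) h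
  gcongr

theorem MAI_wd_pos (W : ℕ) (hW : 1 ≤ W) (s : ℕ) : 1 ≤ wd W s := by
  induction s with
  | zero => simp [wd]
  | succ s ih =>
    simp only [wd]
    have : 1 ≤ wd W s ^ 2 := Nat.one_le_pow _ _ ih
    nlinarith

theorem MAI_wd_mono (W : ℕ) (hW : 1 ≤ W) {s t : ℕ} (h : s ≤ t) : wd W s ≤ wd W t := by
  induction t, h using Nat.le_induction with
  | base => exact le_rfl
  | succ t _ ih =>
    refine ih.trans ?_
    simp only [wd]
    have h1 := MAI_wd_pos W hW t
    nlinarith [Nat.mul_le_mul hW (Nat.mul_le_mul h1 h1)]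

theorem MAI_hbound (c w D : ℕ) : 1 ≤ hbound c w D := by
  unfold hbound
  have : 0 < 2 * ((c + 1) * ((w + 1) * (D + 2)) ^ c *
      ((w + 1) * (D + 2) ^ (2 * ((c + 1) * (c + 1) + 1)))) := by positivity
  omega

theorem MAI (hNZR : NZR_stmt.{u}) (hRED : RED_stmt.{u}) (hLHI : LHI_stmt.{u}) (hRUN : RUN_stmt.{u})
    (hLRX : LRX_stmt.{u}) (hRCO : RCO_stmt.{u}) (hODE : ODE_stmt.{u}) (hMNP : MNP_stmt.{u}) :
    MAI_stmt.{u} := by
  intro R K k _ _ _ _ _ _ _ _ π hsurj hloc n c w d f hSP hdeg
  obtain ⟨τ, A, P, κ, a, p, hA, hA0, hP, hP0, hG⟩ := hNZR R K k π n c w _ hSP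
  obtain ⟨r, L, α, β, lam, N, y, hrL, hLc, hrel, hne, hy, hN⟩ :=
    hRED R K k π hsurj hloc n c w f A P κ a p hA0 hP0 hG
  set W : ℕ := hbound c w (d + c) with hW
  set ρ : ℕ := wd W c with hρ
  have hperm : (List.ofFn τ).Perm (List.finRange n) := by
    rw [List.ofFn_eq_map]
    exact Equiv.Perm.map_finRange_perm τ
  have hLL : d + L.length ≤ d + c := by omega
  -- the ranks of Lam and h
  have hlhi := fun i : Fin c => hLHI n K c w (d + c) τ A
    (fun j => MvPolynomial.map (algebraMap R K) (P j)) (fun l => algebraMap R K (α l)) y (a i) (p i) hA hP hy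
  obtain ⟨L1, L2, L3, L4, L5, L6, L7, L8⟩ := hLRX n K (List.ofFn τ)
  have hmono : 1 ≤ W := MAI_hbound _ _ _
  have key : ∀ m, LR ρ (List.ofFn τ) d
      ((run dz (∏ j, line (fun l => algebraMap R K (α l)) (A j))
        (fun i => hl dz (fun j => line (fun l => algebraMap R K (α l)) (A j))
          (fun j => line (fun l => algebraMap R K (α l))
            (MvPolynomial.map (algebraMap R K) (P j))) y (a i) (p i)) L).2 m) := by
    intro m
    rcases Nat.eq_zero_or_pos c with hc0 | hc0
    · -- no terms at all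
      subst hc0
      have hLn : L = [] := by
        cases L with
        | nil => rfl
        | cons t L => exact t.elim0
      subst hLn
      simp only [run]
      have h1 := L7 d
      have h2 := L8 1 d
      split_ifs with h
      · exact L1 1 ρ d d _ (MAI_wd_pos W hmono 0) le_rfl h1
      · exact L1 1 ρ d d _ (MAI_wd_pos W hmono 0) le_rfl h2
    · have hrun := (hRUN n K c W (List.ofFn τ)
        (∏ j, line (fun l => algebraMap R K (α l)) (A j))
        (fun i => hl dz (fun j => line (fun l => algebraMap R K (α l)) (A j))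
          (fun j => line (fun l => algebraMap R K (α l))
            (MvPolynomial.map (algebraMap R K) (P j))) y (a i) (p i)) L d
        (L1 W W _ _ _ le_rfl hLL (hlhi ⟨0, hc0⟩).1)
        (fun i => L1 W W _ _ _ le_rfl hLL (hlhi i).2)).2 m
      exact L1 _ _ _ _ _ (MAI_wd_mono W hmono hLc) le_rfl hrun
  have hrank : ∀ m ≤ r, ∀ i ≤ d, RP ρ (List.ofFn τ)
      {MvPolynomial.map (algebraMap R K) (PowerSeries.coeff i (N m))} := by
    intro m hm i hi
    have h1 := L6 ρ d _ lam (key m)
    rw [← hN m hm] at h1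
    apply hMNP n K ρ ρ (List.ofFn τ) _ _ le_rfl _ h1
    intro q hq
    rw [Set.mem_singleton_iff] at hq
    exact ⟨i, hi, by rw [hq, PowerSeries.coeff_map]⟩
  have hfin := hODE n r d (8 * (n + 1) * (d + 1) * (ρ * (d + 1) + 2) ^ 2 + 1) k
    (MvPolynomial.map π f) (fun l => π (α l)) (fun l => π (β l))
    (fun m => PowerSeries.map (MvPolynomial.map π) (N m)) hdeg hrel hne (by
      intro m hm i hi a' ha'
      have h1 := hRCO R K k π n ρ a' (List.ofFn τ) (PowerSeries.coeff i (N m)) β hperm (hrank m hm i hi)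
      rw [PowerSeries.coeff_map]
      refine MAI_mono ?_ h1
      gcongr)
  exact MAI_mono (MAI_obound n r c d _ (hrL.trans hLc)) hfin

end Pool.Agent.WD
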